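import Mathlib

/-!
# The exact exponential rate of the inverse of the minimal `L₁`-discrepancy

For every `ε ∈ (0,1)` the smallest number `N₁(ε,d)` of points in `[0,1)^d` whose `L₁`-discrepancy
is at most `ε` times the initial one satisfies `N₁(ε,d)^(1/d) → √e`.
In particular the `L₁`-discrepancy suffers from the curse of dimensionality.

Lower bound: where the volume `v` of the box `[0,t)` is smaller than `1/(2N)`, the local
discrepancy of any `N` points is at least `v` in absolute value, and with respect to the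
probability density proportional to `v` the volume is concentrated around `e^(-d/2)`.
Upper bound: for random points the mean of the absolute local discrepancy is at most
`min (2v) (√(v/N))`.
-/

set_option autoImplicit false

namespace Pool.Agent.Results.MP_4b7d36_an.ExactRate

open MeasureTheory Filter Topology

/-- Local discrepancy of the points `x 0, ..., x (N-1)` at `t`: the fraction of the points that lie
in the box `[0,t)`, minus the volume of the box. -/
noncomputable def localDisc {N d : ℕ} (x : Fin N → Fin d → ℝ) (t : Fin d → ℝ) : ℝ :=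
  (Nat.card {k : Fin N // x k ∈ Set.pi Set.univ fun j => Set.Ico (0 : ℝ) (t j)} : ℝ) / N
    - ∏ j, t j

/-- The `L₁`-discrepancy of the points `x 0, ..., x (N-1)`. -/
noncomputable def L1Disc {N d : ℕ} (x : Fin N → Fin d → ℝ) : ℝ :=
  ∫ t in Set.pi Set.univ fun _ : Fin d => Set.Icc (0 : ℝ) 1, |localDisc x t|

/-- The minimal `L₁`-discrepancy of `N` points in `[0,1)^d`. -/
noncomputable def minDisc (N d : ℕ) : ℝ :=
  ⨅ x : {x : Fin N → Fin d → ℝ // ∀ k j, x k j ∈ Set.Ico (0 : ℝ) 1}, L1Disc x.1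

/-- The inverse of the minimal `L₁`-discrepancy. -/
noncomputable def invDisc (ε : ℝ) (d : ℕ) : ℕ :=
  sInf {N : ℕ | minDisc N d ≤ ε * minDisc 0 d}

/-! ### Integrals over the cube -/

/-- Lebesgue measure on the unit cube. -/
noncomputable def cube (d : ℕ) : Measure (Fin d → ℝ) :=
  volume.restrict (Set.pi Set.univ fun _ : Fin d => Set.Icc (0 : ℝ) 1)

theorem cube_eq (d : ℕ) : cube d = Measure.pi fun _ : Fin d => volume.restrict (Set.Icc (0:ℝ) 1) := by
  unfold cube
  rw [volume_pi, Measure.restrict_pi_pi]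

instance prob01 : IsProbabilityMeasure (volume.restrict (Set.Icc (0:ℝ) 1)) := by
  constructor
  simp

instance probCube (d : ℕ) : IsProbabilityMeasure (cube d) := by
  rw [cube_eq]; infer_instance

theorem ae_cube (d : ℕ) : ∀ᵐ t ∂(cube d), ∀ j, t j ∈ Set.Icc (0:ℝ) 1 := by
  have h : MeasurableSet (Set.pi Set.univ fun _ : Fin d => Set.Icc (0:ℝ) 1) :=
    MeasurableSet.univ_pi fun _ => measurableSet_Icc
  filter_upwards [ae_restrict_mem h] with t ht j
  exact ht j (Set.mem_univ j)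

theorem int_pow (d : ℕ) (a : ℝ) (ha : 0 ≤ a) :
    ∫ t, (∏ j, t j) ^ a ∂(cube d) = ((a + 1)⁻¹) ^ d := by
  have h1 : ∫ t, (∏ j, t j) ^ a ∂(cube d) = ∫ t, ∏ j, (t j) ^ a ∂(cube d) := by
    refine integral_congr_ae ?_
    filter_upwards [ae_cube d] with t ht
    exact (Real.finsetProd_rpow _ _ (fun j _ => (ht j).1) a).symm
  rw [h1, cube_eq, integral_fintype_prod_eq_pow (fun s : ℝ => s ^ a)]
  congr 1
  · rw [integral_Icc_eq_integral_Ioc, ← intervalIntegral.integral_of_le zero_le_one,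
      integral_rpow (Or.inl (by linarith))]
    rw [Real.one_rpow, Real.zero_rpow (by linarith)]
    simp
  · simp

theorem prod_mem {d : ℕ} {t : Fin d → ℝ} (ht : ∀ j, t j ∈ Set.Icc (0:ℝ) 1) :
    ∏ j, t j ∈ Set.Icc (0:ℝ) 1 :=
  ⟨Finset.prod_nonneg fun j _ => (ht j).1, Finset.prod_le_one (fun j _ => (ht j).1)
    fun j _ => (ht j).2⟩

theorem integrable_pow (d : ℕ) (a : ℝ) (ha : 0 ≤ a) :
    Integrable (fun t : Fin d → ℝ => (∏ j, t j) ^ a) (cube d) := by
  refine Integrable.of_bound (C := 1) ?_ ?_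
  · have : Measurable fun t : Fin d → ℝ => ∏ j, t j := by fun_prop
    exact (this.pow_const a).aestronglyMeasurable
  · filter_upwards [ae_cube d] with t ht
    have h := prod_mem ht
    rw [Real.norm_of_nonneg (Real.rpow_nonneg h.1 a)]
    exact Real.rpow_le_one h.1 h.2 ha

/-! ### The local discrepancy as a sum -/

/-- The box `[0,t)`. -/
def box {d : ℕ} (t : Fin d → ℝ) : Set (Fin d → ℝ) := Set.pi Set.univ fun j => Set.Ico (0 : ℝ) (t j)

theorem localDisc_eq {N d : ℕ} (x : Fin N → Fin d → ℝ) (t : Fin d → ℝ) :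
    localDisc x t = (∑ k, (box t).indicator (fun _ => (1:ℝ)) (x k)) / N - ∏ j, t j := by
  classical
  unfold localDisc box
  rw [Nat.card_eq_fintype_card, Fintype.card_subtype]
  simp only [Set.indicator_apply]
  rw [Finset.sum_ite]
  simp

theorem measurable_localDisc {N d : ℕ} :
    Measurable fun p : (Fin N → Fin d → ℝ) × (Fin d → ℝ) => localDisc p.1 p.2 := by
  simp_rw [localDisc_eq]
  refine Measurable.sub (Measurable.div_const (Finset.measurable_sum _ fun k _ => ?_) _) (by fun_prop)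
  have : (fun p : (Fin N → Fin d → ℝ) × (Fin d → ℝ) =>
      (box p.2).indicator (fun _ => (1:ℝ)) (p.1 k)) =
      Set.indicator {p : (Fin N → Fin d → ℝ) × (Fin d → ℝ) | p.1 k ∈ box p.2} (fun _ => 1) := by
    ext p
    by_cases h : p.1 k ∈ box p.2
    · rw [Set.indicator_of_mem h, Set.indicator_of_mem (s :=
        {p : (Fin N → Fin d → ℝ) × (Fin d → ℝ) | p.1 k ∈ box p.2}) h]
    · rw [Set.indicator_of_notMem h, Set.indicator_of_notMem (s :=
        {p : (Fin N → Fin d → ℝ) × (Fin d → ℝ) | p.1 k ∈ box p.2}) h]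
  rw [this]
  refine measurable_const.indicator ?_
  have h2 : {p : (Fin N → Fin d → ℝ) × (Fin d → ℝ) | p.1 k ∈ box p.2} =
      ⋂ j, ({p | 0 ≤ p.1 k j} ∩ {p | p.1 k j < p.2 j}) := by
    ext p
    simp [box, Set.mem_pi]
  rw [h2]
  refine MeasurableSet.iInter fun j => (measurableSet_le (by fun_prop) (by fun_prop)).inter
    (measurableSet_lt (by fun_prop) (by fun_prop))

theorem abs_localDisc_le {N d : ℕ} (x : Fin N → Fin d → ℝ) {t : Fin d → ℝ}
    (ht : ∀ j, t j ∈ Set.Icc (0:ℝ) 1) : |localDisc x t| ≤ 1 := by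
  classical
  have hv := prod_mem ht
  rw [localDisc_eq]
  have h0 : 0 ≤ (∑ k, (box t).indicator (fun _ => (1:ℝ)) (x k)) / N :=
    div_nonneg (Finset.sum_nonneg fun k _ => Set.indicator_nonneg (fun _ _ => zero_le_one) _)
      (Nat.cast_nonneg _)
  have h1 : (∑ k, (box t).indicator (fun _ => (1:ℝ)) (x k)) / N ≤ 1 := by
    refine div_le_one_of_le₀ ?_ (Nat.cast_nonneg _)
    calc (∑ k, (box t).indicator (fun _ => (1:ℝ)) (x k)) ≤ ∑ k : Fin N, (1:ℝ) :=
          Finset.sum_le_sum fun k _ => Set.indicator_le_self' (fun _ _ => zero_le_one) _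
      _ = N := by simp
  rw [abs_le]
  constructor <;> linarith [hv.1, hv.2]

theorem integrable_localDisc {N d : ℕ} (x : Fin N → Fin d → ℝ) :
    Integrable (fun t => |localDisc x t|) (cube d) := by
  refine Integrable.of_bound (C := 1) ?_ ?_
  · have h1 : Measurable fun t : Fin d → ℝ => (x, t) := measurable_prodMk_left
    have h2 : Measurable ((fun p : (Fin N → Fin d → ℝ) × (Fin d → ℝ) => |localDisc p.1 p.2|) ∘
      fun t : Fin d → ℝ => (x, t)) :=
      Measurable.comp (measurable_abs.comp measurable_localDisc) h1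
    exact Measurable.aestronglyMeasurable h2
  · filter_upwards [ae_cube d] with t ht
    rw [Real.norm_eq_abs, abs_abs]
    exact abs_localDisc_le x ht

theorem L1Disc_eq {N d : ℕ} (x : Fin N → Fin d → ℝ) : L1Disc x = ∫ t, |localDisc x t| ∂(cube d) :=
  rfl

theorem L1Disc_nonneg {N d : ℕ} (x : Fin N → Fin d → ℝ) : 0 ≤ L1Disc x :=
  integral_nonneg fun _ => abs_nonneg _

/-! ### The lower bound -/

theorem local_lower {N d : ℕ} (hN : 0 < N) (x : Fin N → Fin d → ℝ) {t : Fin d → ℝ}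
    (ht : ∀ j, t j ∈ Set.Icc (0:ℝ) 1) {l : ℝ} (hl : 0 < l) :
    (∏ j, t j) ^ (1:ℝ) - (2 * N : ℝ) ^ l * (∏ j, t j) ^ (1 + l) ≤ |localDisc x t| := by
  have hv := prod_mem ht
  set v := ∏ j, t j with hvd
  have hN' : (0:ℝ) < N := by exact_mod_cast hN
  rw [Real.rpow_one]
  rcases lt_or_ge (2 * N * v) 1 with h | h
  · -- the volume is small
    have h1 : v ≤ |localDisc x t| := by
      unfold localDisc
      rw [← hvd]
      rcases Nat.eq_zero_or_pos
        (Nat.card {k : Fin N // x k ∈ Set.pi Set.univ fun j => Set.Ico (0 : ℝ) (t j)}) with h0 | h0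
      · rw [h0]
        simp [abs_of_nonneg hv.1]
      · have h2 : (1:ℝ) ≤
          (Nat.card {k : Fin N // x k ∈ Set.pi Set.univ fun j => Set.Ico (0 : ℝ) (t j)} : ℝ) := by
          exact_mod_cast h0
        have h3 : 1 / (N:ℝ) ≤
          (Nat.card {k : Fin N // x k ∈ Set.pi Set.univ fun j => Set.Ico (0 : ℝ) (t j)} : ℝ) / N := by
          gcongr
        have h4 : 2 * v ≤ 1 / (N:ℝ) := by
          rw [le_div_iff₀ hN']; linarith
        refine le_trans ?_ (le_abs_self _)
        linarith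
    have h2 : 0 ≤ (2 * N : ℝ) ^ l * v ^ (1 + l) := by
      have := hv.1
      positivity
    linarith
  · have h1 : 1 ≤ (2 * N : ℝ) ^ l * v ^ l := by
      rw [← Real.mul_rpow (by positivity) hv.1]
      exact Real.one_le_rpow h hl.le
    have hv0 : 0 < v := by
      rcases hv.1.lt_or_eq with h0 | h0
      · exact h0
      · rw [← h0] at h; norm_num at h
    have h2 : v ^ (1 + l) = v * v ^ l := by
      rw [Real.rpow_add hv0, Real.rpow_one]
    have h3 : v ≤ (2 * N : ℝ) ^ l * v ^ (1 + l) := by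
      rw [h2]
      nlinarith
    have := abs_nonneg (localDisc x t)
    linarith

theorem L1_lower {N d : ℕ} (hN : 0 < N) (x : Fin N → Fin d → ℝ) {l : ℝ} (hl : 0 < l) :
    ((2:ℝ)⁻¹) ^ d - (2 * N : ℝ) ^ l * ((2 + l)⁻¹) ^ d ≤ L1Disc x := by
  have h1 : ∫ t, ((∏ j, t j) ^ (1:ℝ) - (2 * N : ℝ) ^ l * (∏ j, t j) ^ (1 + l)) ∂(cube d)
      = ((2:ℝ)⁻¹) ^ d - (2 * N : ℝ) ^ l * ((2 + l)⁻¹) ^ d := by
    rw [integral_sub (integrable_pow d 1 zero_le_one)
      ((integrable_pow d (1 + l) (by linarith)).const_mul _), integral_const_mul,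
      int_pow d 1 zero_le_one, int_pow d (1 + l) (by linarith)]
    congr 4
    · norm_num
    · ring
  rw [← h1, L1Disc_eq]
  refine integral_mono_ae ((integrable_pow d 1 zero_le_one).sub
    ((integrable_pow d (1 + l) (by linarith)).const_mul _)) (integrable_localDisc x) ?_
  filter_upwards [ae_cube d] with t ht
  exact local_lower hN x ht hl

theorem L1_zero {d : ℕ} (x : Fin 0 → Fin d → ℝ) : L1Disc x = ((2:ℝ)⁻¹) ^ d := by
  rw [L1Disc_eq]
  have h : ∫ t, |localDisc x t| ∂(cube d) = ∫ t, (∏ j, t j) ^ (1:ℝ) ∂(cube d) := by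
    refine integral_congr_ae ?_
    filter_upwards [ae_cube d] with t ht
    have hv := prod_mem ht
    unfold localDisc
    simp [abs_of_nonneg hv.1]
  rw [h, int_pow d 1 zero_le_one]
  norm_num

instance (N d : ℕ) : Nonempty {x : Fin N → Fin d → ℝ // ∀ k j, x k j ∈ Set.Ico (0 : ℝ) 1} :=
  ⟨⟨fun _ _ => 0, fun _ _ => by simp⟩⟩

theorem minDisc_zero (d : ℕ) : minDisc 0 d = ((2:ℝ)⁻¹) ^ d := by
  unfold minDisc
  simp_rw [L1_zero]
  exact ciInf_const

theorem bdd (N d : ℕ) : BddBelow (Set.range fun x : {x : Fin N → Fin d → ℝ //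
    ∀ k j, x k j ∈ Set.Ico (0 : ℝ) 1} => L1Disc x.1) :=
  ⟨0, by rintro _ ⟨x, rfl⟩; exact L1Disc_nonneg _⟩

theorem minDisc_lower {N d : ℕ} (hN : 0 < N) {l : ℝ} (hl : 0 < l) :
    ((2:ℝ)⁻¹) ^ d - (2 * N : ℝ) ^ l * ((2 + l)⁻¹) ^ d ≤ minDisc N d :=
  le_ciInf fun x => L1_lower hN x.1 hl

/-! ### The upper bound -/

/-- Lebesgue measure on `[0,1)^d`. -/
noncomputable def cubo (d : ℕ) : Measure (Fin d → ℝ) :=
  Measure.pi fun _ : Fin d => volume.restrict (Set.Ico (0:ℝ) 1)

instance prob01' : IsProbabilityMeasure (volume.restrict (Set.Ico (0:ℝ) 1)) := by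
  constructor
  simp

instance probCubo (d : ℕ) : IsProbabilityMeasure (cubo d) := by
  unfold cubo; infer_instance

theorem cubo_box {d : ℕ} {t : Fin d → ℝ} (ht : ∀ j, t j ∈ Set.Icc (0:ℝ) 1) :
    (cubo d).real (box t) = ∏ j, t j := by
  unfold cubo box Measure.real
  rw [Measure.pi_pi, ENNReal.toReal_prod]
  refine Finset.prod_congr rfl fun j _ => ?_
  rw [Measure.restrict_apply measurableSet_Ico, Set.Ico_inter_Ico]
  simp [(ht j).1, (ht j).2]

theorem measurableSet_box {d : ℕ} (t : Fin d → ℝ) : MeasurableSet (box t) :=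
  MeasurableSet.univ_pi fun _ => measurableSet_Ico

theorem mean_local {N d : ℕ} (hN : 0 < N) {t : Fin d → ℝ} (ht : ∀ j, t j ∈ Set.Icc (0:ℝ) 1)
    {s : ℝ} (hs : 0 < s) (hs1 : s ≤ 1 / 2) :
    ∫ x, |localDisc x t| ∂(Measure.pi fun _ : Fin N => cubo d)
      ≤ 2 * (N:ℝ) ^ (-s) * (∏ j, t j) ^ (1 - s) := by
  classical
  have hN' : (0:ℝ) < N := by exact_mod_cast hN
  have hv := prod_mem ht
  set v := ∏ j, t j with hvd
  set B : (Fin d → ℝ) → ℝ := (box t).indicator (fun _ => (1:ℝ)) with hB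
  have hBm : Measurable B := measurable_const.indicator (measurableSet_box t)
  have hB0 : ∀ y, 0 ≤ B y := fun y => Set.indicator_nonneg (fun _ _ => zero_le_one) _
  have hB1 : ∀ y, B y ≤ 1 := fun y => Set.indicator_le_self' (fun _ _ => zero_le_one) _
  have hBint : Integrable B (cubo d) :=
    Integrable.of_bound (C := 1) hBm.aestronglyMeasurable
      (Filter.Eventually.of_forall fun y => by
        rw [Real.norm_of_nonneg (hB0 y)]; exact hB1 y)
  have hBE : ∫ y, B y ∂(cubo d) = v := by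
    rw [hB, integral_indicator_const _ (measurableSet_box t), cubo_box ht]
    simp [hvd]
  set M : Measure (Fin N → Fin d → ℝ) := Measure.pi fun _ : Fin N => cubo d with hM
  have hML : MemLp B 2 (cubo d) := by
    refine MemLp.of_bound hBm.aestronglyMeasurable 1 (Filter.Eventually.of_forall fun y => ?_)
    rw [Real.norm_of_nonneg (hB0 y)]; exact hB1 y
  -- the sum
  set Y : (Fin N → Fin d → ℝ) → ℝ := ∑ k, fun x => B (x k) with hY
  have hYa : ∀ x, Y x = ∑ k, B (x k) := fun x => by rw [hY, Finset.sum_apply]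
  have hYm : Measurable Y := by
    have : Y = fun x => ∑ k, B (x k) := funext hYa
    rw [this]
    exact Finset.measurable_sum _ fun k _ => hBm.comp (measurable_pi_apply k)
  have hint : ∀ k : Fin N, Integrable (fun x : Fin N → Fin d → ℝ => B (x k)) M :=
    fun k => integrable_comp_eval (μ := fun _ : Fin N => cubo d) (i := k) hBint
  have hYE : ∫ x, Y x ∂M = N * v := by
    simp_rw [hYa]
    rw [integral_finsetSum _ fun k _ => hint k]
    have : ∀ k : Fin N, ∫ x, B (x k) ∂M = v := fun k => by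
      rw [hM, integral_comp_eval (μ := fun _ : Fin N => cubo d) (i := k)
        hBm.aestronglyMeasurable, hBE]
    simp [this]
  have hYi : Integrable Y M := by
    simp_rw [funext hYa]
    exact integrable_finsetSum _ fun k _ => hint k
  have hvar : ProbabilityTheory.variance Y M ≤ N * v := by
    rw [hY, hM, ProbabilityTheory.variance_sum_pi (μ := fun _ : Fin N => cubo d)
      (X := fun _ => B) fun _ => hML]
    have h1 : ProbabilityTheory.variance B (cubo d) ≤ v := by
      have h2 := ProbabilityTheory.variance_le_sub_mul_sub (μ := cubo d) (a := 0) (b := 1)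
        (X := B) (Filter.Eventually.of_forall fun y => ⟨hB0 y, hB1 y⟩) hBm.aemeasurable
      rw [hBE] at h2
      nlinarith [hv.1, hv.2]
    calc ∑ _i : Fin N, ProbabilityTheory.variance B (cubo d) ≤ ∑ _i : Fin N, v :=
          Finset.sum_le_sum fun _ _ => h1
      _ = N * v := by simp
  have hYL : MemLp Y 2 M := by
    refine MemLp.of_bound hYm.aestronglyMeasurable N (Filter.Eventually.of_forall fun x => ?_)
    rw [hYa, Real.norm_of_nonneg (Finset.sum_nonneg fun k _ => hB0 _)]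
    calc ∑ k, B (x k) ≤ ∑ _k : Fin N, (1:ℝ) := Finset.sum_le_sum fun k _ => hB1 _
      _ = N := by simp
  have hsq : ∫ x, (Y x - N * v) ^ 2 ∂M ≤ N * v := by
    have := ProbabilityTheory.variance_eq_integral (μ := M) hYm.aemeasurable
    rw [this, hYE] at hvar
    exact hvar
  have hsqi : Integrable (fun x => (Y x - N * v) ^ 2) M := (hYL.sub (memLp_const _)).integrable_sq
  have hloc : ∀ x, |localDisc x t| = (N:ℝ)⁻¹ * |Y x - N * v| := by
    intro x
    have e : localDisc x t = (N:ℝ)⁻¹ * (Y x - N * v) := by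
      rw [localDisc_eq, ← hvd, hYa]
      field_simp
      rfl
    rw [e, abs_mul, abs_of_pos (inv_pos.2 hN')]
  have habs : Integrable (fun x => |Y x - N * v|) M := (hYi.sub (integrable_const _)).abs
  simp_rw [hloc]
  rw [integral_const_mul]
  -- first bound
  have hb1 : ∫ x, |Y x - N * v| ∂M ≤ 2 * (N * v) := by
    calc ∫ x, |Y x - N * v| ∂M ≤ ∫ x, (Y x + N * v) ∂M := by
          refine integral_mono habs (hYi.add (integrable_const _)) fun x => ?_
          have h0 : 0 ≤ Y x := by rw [hYa]; exact Finset.sum_nonneg fun k _ => hB0 _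
          have h1 : 0 ≤ (N:ℝ) * v := mul_nonneg hN'.le hv.1
          show |Y x - N * v| ≤ Y x + N * v
          rw [abs_le]; constructor <;> linarith
      _ = 2 * (N * v) := by
          rw [integral_add hYi (integrable_const _), hYE]
          simp
          ring
  -- second bound
  have hb2 : 1 ≤ N * v → ∫ x, |Y x - N * v| ∂M ≤ Real.sqrt (N * v) := by
    intro h
    have hc : 0 < Real.sqrt (N * v) := Real.sqrt_pos.2 (by linarith)
    have h1 : ∀ x, |Y x - N * v| ≤ ((Y x - N * v) ^ 2 / Real.sqrt (N * v) + Real.sqrt (N * v)) / 2 := by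
      intro x
      have h2 : 0 ≤ (|Y x - N * v| - Real.sqrt (N * v)) ^ 2 / Real.sqrt (N * v) := by positivity
      have h3 : (|Y x - N * v| - Real.sqrt (N * v)) ^ 2 / Real.sqrt (N * v)
          = (Y x - N * v) ^ 2 / Real.sqrt (N * v) + Real.sqrt (N * v) - 2 * |Y x - N * v| := by
        field_simp
        rw [← sq_abs (Y x - N * v)]
        ring
      linarith
    calc ∫ x, |Y x - N * v| ∂M
        ≤ ∫ x, ((Y x - N * v) ^ 2 / Real.sqrt (N * v) + Real.sqrt (N * v)) / 2 ∂M :=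
          integral_mono habs (((hsqi.div_const _).add (integrable_const _)).div_const _) h1
      _ = ((∫ x, (Y x - N * v) ^ 2 ∂M) / Real.sqrt (N * v) + Real.sqrt (N * v)) / 2 := by
          rw [integral_div, integral_add (hsqi.div_const _) (integrable_const _), integral_div]
          simp
      _ ≤ (N * v / Real.sqrt (N * v) + Real.sqrt (N * v)) / 2 := by gcongr
      _ = Real.sqrt (N * v) := by
          rw [Real.div_sqrt]; ring
  rcases hv.1.lt_or_eq with hv0 | hv0
  · have hNv : 0 < (N:ℝ) * v := mul_pos hN' hv0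
    have key : ∫ x, |Y x - N * v| ∂M ≤ 2 * (N * v) ^ (1 - s) := by
      rcases lt_or_ge ((N:ℝ) * v) 1 with h | h
      · refine hb1.trans ?_
        have : (N * v : ℝ) ^ (1:ℝ) ≤ (N * v) ^ (1 - s) :=
          Real.rpow_le_rpow_of_exponent_ge hNv h.le (by linarith)
        rw [Real.rpow_one] at this
        linarith
      · refine (hb2 h).trans ?_
        rw [Real.sqrt_eq_rpow]
        have : (N * v : ℝ) ^ (1 / 2 : ℝ) ≤ (N * v) ^ (1 - s) :=
          Real.rpow_le_rpow_of_exponent_le h (by linarith)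
        have h0 : 0 ≤ (N * v : ℝ) ^ (1 - s) := by positivity
        linarith
    calc (N:ℝ)⁻¹ * ∫ x, |Y x - N * v| ∂M ≤ (N:ℝ)⁻¹ * (2 * (N * v) ^ (1 - s)) := by gcongr
      _ = 2 * (N:ℝ) ^ (-s) * v ^ (1 - s) := by
          rw [Real.mul_rpow hN'.le hv.1]
          have : (N:ℝ) ^ (-s) = (N:ℝ)⁻¹ * (N:ℝ) ^ (1 - s) := by
            rw [← Real.rpow_neg_one, ← Real.rpow_add hN']
            congr 1
            ring
          rw [this]; ring
  · rw [← hv0] at hb1 ⊢
    have h0 : (0:ℝ) ^ (1 - s) = 0 := Real.zero_rpow (by linarith)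
    rw [h0, mul_zero]
    have h1 : ∫ x, |Y x - N * 0| ∂M ≤ 0 := by simpa using hb1
    simp only [mul_zero] at h1 ⊢
    exact mul_nonpos_of_nonneg_of_nonpos (inv_nonneg.2 hN'.le) h1

theorem L1_upper {N : ℕ} (d : ℕ) (hN : 0 < N) {s : ℝ} (hs : 0 < s) (hs1 : s ≤ 1 / 2) :
    minDisc N d ≤ 2 * (N:ℝ) ^ (-s) * ((2 - s)⁻¹) ^ d := by
  set M : Measure (Fin N → Fin d → ℝ) := Measure.pi fun _ : Fin N => cubo d with hM
  have hbd : ∀ᵐ p : (Fin N → Fin d → ℝ) × (Fin d → ℝ) ∂(M.prod (cube d)),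
      ‖|localDisc p.1 p.2|‖ ≤ 1 := by
    have h1 : ∀ᵐ p : (Fin N → Fin d → ℝ) × (Fin d → ℝ) ∂(M.prod (cube d)),
        ∀ j, p.2 j ∈ Set.Icc (0:ℝ) 1 := Measure.quasiMeasurePreserving_snd.ae (ae_cube d)
    filter_upwards [h1] with p hp
    rw [Real.norm_eq_abs, abs_abs]
    exact abs_localDisc_le _ hp
  have hint : Integrable (fun p : (Fin N → Fin d → ℝ) × (Fin d → ℝ) => |localDisc p.1 p.2|)
      (M.prod (cube d)) :=
    Integrable.of_bound (measurable_norm.comp measurable_localDisc).aestronglyMeasurable 1 hbd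
  have hswap : ∫ x, L1Disc x ∂M = ∫ t, ∫ x, |localDisc x t| ∂M ∂(cube d) := by
    simp_rw [L1Disc_eq]
    exact integral_integral_swap hint
  have hle : ∫ x, L1Disc x ∂M ≤ 2 * (N:ℝ) ^ (-s) * ((2 - s)⁻¹) ^ d := by
    rw [hswap]
    calc ∫ t, ∫ x, |localDisc x t| ∂M ∂(cube d)
        ≤ ∫ t, 2 * (N:ℝ) ^ (-s) * (∏ j, t j) ^ (1 - s) ∂(cube d) := by
          refine integral_mono_ae hint.integral_prod_right
            ((integrable_pow d (1 - s) (by linarith)).const_mul _) ?_
          filter_upwards [ae_cube d] with t ht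
          exact mean_local hN ht hs hs1
      _ = 2 * (N:ℝ) ^ (-s) * ((2 - s)⁻¹) ^ d := by
          rw [integral_const_mul, int_pow d (1 - s) (by linarith)]
          congr 3
          ring
  have hL : Integrable (fun x : Fin N → Fin d → ℝ => L1Disc x) M := hint.integral_prod_left
  have hae : ∀ᵐ x ∂M, ∀ k j, x k j ∈ Set.Ico (0:ℝ) 1 := by
    rw [ae_all_iff]; intro k
    rw [ae_all_iff]; intro j
    have h1 : ∀ᵐ y ∂(cubo d), y j ∈ Set.Ico (0:ℝ) 1 := by
      have h2 : ∀ᵐ z ∂(volume.restrict (Set.Ico (0:ℝ) 1)), z ∈ Set.Ico (0:ℝ) 1 :=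
        ae_restrict_mem measurableSet_Ico
      exact (measurePreserving_eval (fun _ : Fin d => volume.restrict (Set.Ico (0:ℝ) 1))
        j).quasiMeasurePreserving.ae h2
    exact (measurePreserving_eval (fun _ : Fin N => cubo d) k).quasiMeasurePreserving.ae h1
  obtain ⟨x, hx, hxle⟩ := exists_notMem_null_le_integral hL (ae_iff.1 hae)
  have hx' : ∀ k j, x k j ∈ Set.Ico (0:ℝ) 1 := by
    by_contra h
    exact hx h
  exact (ciInf_le (bdd N d) ⟨x, hx'⟩).trans (hxle.trans hle)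

/-! ### The rate -/

theorem mem_of_large {N d : ℕ} (hN : 0 < N) {s ε : ℝ} (hs : 0 < s) (hs1 : s ≤ 1 / 2) (hε : 0 < ε)
    (h : 2 / ε * ((1 - s / 2)⁻¹) ^ d ≤ (N:ℝ) ^ s) : minDisc N d ≤ ε * minDisc 0 d := by
  have hN' : (0:ℝ) < N := by exact_mod_cast hN
  refine (L1_upper d hN hs hs1).trans ?_
  rw [minDisc_zero, Real.rpow_neg hN'.le]
  have h1 : ((2 - s)⁻¹ : ℝ) ^ d = ((2:ℝ)⁻¹) ^ d * ((1 - s / 2)⁻¹) ^ d := by
    rw [← mul_pow, ← mul_inv]
    congr 2
    ring
  have h2 : 0 < (N:ℝ) ^ s := by positivity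
  rw [h1]
  have h3 : 2 * ((N:ℝ) ^ s)⁻¹ * (((2:ℝ)⁻¹) ^ d * ((1 - s / 2)⁻¹) ^ d)
      = ε * ((2:ℝ)⁻¹) ^ d * ((2 / ε * ((1 - s / 2)⁻¹) ^ d) / (N:ℝ) ^ s) := by
    field_simp
  rw [h3]
  have h4 : (2 / ε * ((1 - s / 2)⁻¹) ^ d) / (N:ℝ) ^ s ≤ 1 := by
    rw [div_le_one h2]; exact h
  have h5 : 0 ≤ ε * ((2:ℝ)⁻¹) ^ d := by positivity
  nlinarith

theorem invDisc_spec {ε : ℝ} (hε : 0 < ε) (d : ℕ) :
    minDisc (invDisc ε d) d ≤ ε * minDisc 0 d := by
  have hne : {N : ℕ | minDisc N d ≤ ε * minDisc 0 d}.Nonempty := by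
    have ht : Tendsto (fun N : ℕ => (N:ℝ) ^ (1 / 2 : ℝ)) atTop atTop :=
      (tendsto_rpow_atTop (by norm_num)).comp tendsto_natCast_atTop_atTop
    obtain ⟨N, hN1, hN2⟩ := ((ht.eventually_ge_atTop
      (2 / ε * ((1 - (1/2 : ℝ) / 2)⁻¹) ^ d)).and (eventually_ge_atTop 1)).exists
    exact ⟨N, mem_of_large hN2 (by norm_num) le_rfl hε hN1⟩
  exact Nat.sInf_mem hne

theorem invDisc_le {ε : ℝ} {N d : ℕ} (h : minDisc N d ≤ ε * minDisc 0 d) : invDisc ε d ≤ N :=
  Nat.sInf_le h

theorem invDisc_pos {ε : ℝ} (hε : 0 < ε) (hε1 : ε < 1) (d : ℕ) : 0 < invDisc ε d := by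
  rcases Nat.eq_zero_or_pos (invDisc ε d) with h | h
  · have := invDisc_spec hε d
    rw [h, minDisc_zero] at this
    have h2 : (0:ℝ) < ((2:ℝ)⁻¹) ^ d := by positivity
    nlinarith
  · exact h

theorem invDisc_lower {ε l : ℝ} (hε : 0 < ε) (hε1 : ε < 1) (hl : 0 < l) (d : ℕ) :
    (1 - ε) * (1 + l / 2) ^ d ≤ (2 * (invDisc ε d : ℝ)) ^ l := by
  have h1 := minDisc_lower (d := d) (invDisc_pos hε hε1 d) hl
  have h2 := invDisc_spec hε d
  rw [minDisc_zero] at h2
  have h3 : ((2 + l)⁻¹ : ℝ) ^ d = ((2:ℝ)⁻¹) ^ d * ((1 + l / 2)⁻¹) ^ d := by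
    rw [← mul_pow, ← mul_inv]
    congr 2
    ring
  rw [h3] at h1
  have h4 : (0:ℝ) < ((2:ℝ)⁻¹) ^ d := by positivity
  have h5 : (0:ℝ) < (1 + l / 2) ^ d := by positivity
  have h6 : ((1 + l / 2)⁻¹ : ℝ) ^ d = ((1 + l / 2) ^ d)⁻¹ := inv_pow _ _
  rw [h6] at h1
  have h7 : ((2:ℝ)⁻¹) ^ d * (1 - ε) ≤
      ((2:ℝ)⁻¹) ^ d * ((2 * (invDisc ε d : ℝ)) ^ l * ((1 + l / 2) ^ d)⁻¹) := by
    nlinarith
  have h8 := le_of_mul_le_mul_left h7 h4
  rw [← div_eq_mul_inv, le_div_iff₀ h5] at h8
  exact h8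

/-- **The exact exponential rate `√e` of the inverse of the minimal `L₁`-discrepancy.** -/
theorem result :
    (∀ C : ℝ, 0 < C → C < Real.sqrt (Real.exp 1) → ∀ ε₀ : ℝ, 0 < ε₀ → ε₀ < 1 →
      ∀ᶠ d : ℕ in atTop, ∀ ε : ℝ, 0 < ε → ε ≤ ε₀ → C ^ d ≤ (invDisc ε d : ℝ)) ∧
    (∀ C : ℝ, Real.sqrt (Real.exp 1) < C → ∀ ε : ℝ, 0 < ε →
      ∀ᶠ d : ℕ in atTop, (invDisc ε d : ℝ) ≤ C ^ d) := by
  have hsq : Real.sqrt (Real.exp 1) = Real.exp (1 / 2) := by
    rw [Real.sqrt_eq_rpow, ← Real.exp_mul]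
    norm_num
  constructor
  · intro C hC hC1 ε₀ hε₀ hε₀1
    rw [hsq] at hC1
    set L := Real.log C with hL
    have hCe : C = Real.exp L := (Real.exp_log hC).symm
    have hL1 : L < 1 / 2 := by rwa [hCe, Real.exp_lt_exp] at hC1
    set l := 1 / 2 - L with hl
    have hl0 : 0 < l := by rw [hl]; linarith
    -- `C ^ l < 1 + l / 2`
    have hlt : C ^ l < 1 + l / 2 := by
      have h1 : C ^ l = Real.exp (L * l) := by
        conv_lhs => rw [hCe]
        rw [← Real.exp_mul]
      have h2 : L * l < 1 := by nlinarith [sq_nonneg (L - 1 / 4)]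
      have h3 : Real.exp (L * l) ≤ (1 - L * l)⁻¹ := by
        have h4 := Real.add_one_le_exp (-(L * l))
        have h5 : Real.exp (L * l) = (Real.exp (-(L * l)))⁻¹ := by
          rw [Real.exp_neg, inv_inv]
        rw [h5]
        exact inv_anti₀ (by linarith) (by linarith)
      rw [h1]
      refine lt_of_le_of_lt h3 ?_
      rw [inv_lt_iff_one_lt_mul₀ (by linarith)]
      have h6 : (1 + l / 2) * (1 - L * l) = 1 + l * (1 / 2 - L) - l * l * (L / 2) := by ring
      have h7 : L / 2 < 1 := by linarith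
      nlinarith [mul_pos hl0 hl0]
    have hCl : 0 < C ^ l := by positivity
    have hr : 1 < (1 + l / 2) / C ^ l := by rwa [one_lt_div hCl]
    have ht := tendsto_pow_atTop_atTop_of_one_lt hr
    filter_upwards [ht.eventually_gt_atTop (2 ^ l / (1 - ε₀))] with d hd ε hε hεε
    by_contra hcon
    push Not at hcon
    have hε1 : ε < 1 := lt_of_le_of_lt hεε hε₀1
    have h1 := invDisc_lower hε hε1 hl0 d
    have h2 : (2 * (invDisc ε d : ℝ)) ^ l ≤ 2 ^ l * (C ^ l) ^ d := by
      have h3 : (2 * (invDisc ε d : ℝ)) ^ l ≤ (2 * C ^ d) ^ l :=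
        Real.rpow_le_rpow (by positivity) (by linarith) hl0.le
      refine h3.trans (le_of_eq ?_)
      rw [Real.mul_rpow (by norm_num) (by positivity), ← Real.rpow_natCast, ← Real.rpow_natCast,
        ← Real.rpow_mul hC.le, ← Real.rpow_mul hC.le, mul_comm l]
    have h4 : (1 - ε₀) * (1 + l / 2) ^ d ≤ (1 - ε) * (1 + l / 2) ^ d := by
      have : 0 ≤ (1 + l / 2) ^ d := by positivity
      nlinarith
    have h5 : (1 - ε₀) * (1 + l / 2) ^ d ≤ 2 ^ l * (C ^ l) ^ d := h4.trans (h1.trans h2)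
    rw [div_pow, lt_div_iff₀ (by positivity), div_mul_eq_mul_div, div_lt_iff₀ (by linarith)] at hd
    linarith
  · intro C hC1 ε hε
    rw [hsq] at hC1
    have hC : 0 < C := lt_trans (Real.exp_pos _) hC1
    set L := Real.log C with hL
    have hCe : C = Real.exp L := (Real.exp_log hC).symm
    have hL1 : 1 / 2 < L := by rwa [hCe, Real.exp_lt_exp] at hC1
    -- choose `s`
    obtain ⟨s, hs0, hs1, hs2⟩ : ∃ s : ℝ, 0 < s ∧ s ≤ 1 / 2 ∧ s * L < 2 * L - 1 := by
      refine ⟨min (1 / 2) ((2 * L - 1) / (2 * L)), lt_min (by norm_num)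
        (div_pos (by linarith) (by linarith)), min_le_left _ _, ?_⟩
      have h1 : min (1 / 2) ((2 * L - 1) / (2 * L)) ≤ (2 * L - 1) / (2 * L) := min_le_right _ _
      have h2 : min (1 / 2) ((2 * L - 1) / (2 * L)) * L ≤ (2 * L - 1) / (2 * L) * L :=
        mul_le_mul_of_nonneg_right h1 (by linarith)
      have h3 : (2 * L - 1) / (2 * L) * L = (2 * L - 1) / 2 := by
        have : L ≠ 0 := by linarith
        field_simp
      rw [h3] at h2
      linarith
    have hgt : 1 < C ^ s * (1 - s / 2) := by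
      have h1 : C ^ s = Real.exp (L * s) := by
        conv_lhs => rw [hCe]
        rw [← Real.exp_mul]
      have h2 : 1 + L * s ≤ C ^ s := by
        rw [h1]; linarith [Real.add_one_le_exp (L * s)]
      have h3 : 0 < 1 - s / 2 := by linarith
      nlinarith
    have ht := tendsto_pow_atTop_atTop_of_one_lt hgt
    have hC1' : 1 < C := by
      rw [hCe, Real.one_lt_exp_iff]; linarith
    have ht2 := tendsto_pow_atTop_atTop_of_one_lt hC1'
    filter_upwards [ht.eventually_ge_atTop (2 / ε * 2 ^ s), ht2.eventually_ge_atTop 2] with d hd hd2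
    set N := ⌊C ^ d⌋₊ with hN
    have hCd : 0 < C ^ d := by positivity
    have hNle : (N:ℝ) ≤ C ^ d := Nat.floor_le hCd.le
    have hNge : C ^ d / 2 ≤ N := by
      have := Nat.lt_floor_add_one (C ^ d)
      rw [← hN] at this
      linarith
    have hN0 : 0 < N := by
      have : (0:ℝ) < N := by linarith
      exact_mod_cast this
    refine le_trans ?_ hNle
    have hmem : minDisc N d ≤ ε * minDisc 0 d := by
      refine mem_of_large hN0 hs0 hs1 hε ?_
      have h3 : 0 < 1 - s / 2 := by linarith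
      have h4 : (C ^ d / 2) ^ s ≤ (N:ℝ) ^ s := Real.rpow_le_rpow (by positivity) hNge hs0.le
      refine le_trans ?_ h4
      have h5 : (C ^ d / 2) ^ s = (C ^ s) ^ d / 2 ^ s := by
        rw [Real.div_rpow hCd.le (by norm_num), ← Real.rpow_natCast, ← Real.rpow_natCast,
          ← Real.rpow_mul hC.le, ← Real.rpow_mul hC.le, mul_comm s]
      rw [h5, le_div_iff₀ (by positivity), inv_pow, mul_pow] at *
      have h6 : 0 < (1 - s / 2) ^ d := by positivity
      calc 2 / ε * ((1 - s / 2) ^ d)⁻¹ * 2 ^ s = (2 / ε * 2 ^ s) * ((1 - s / 2) ^ d)⁻¹ := by ring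
        _ ≤ ((C ^ s) ^ d * (1 - s / 2) ^ d) * ((1 - s / 2) ^ d)⁻¹ := by gcongr
        _ = (C ^ s) ^ d := mul_inv_cancel_right₀ h6.ne' _
    exact_mod_cast invDisc_le hmem

end Pool.Agent.Results.MP_4b7d36_an.ExactRate
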